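import Pool.Agent.SGZ.Fin2

/-!
# Self-averaging of the mixing time of the `±1` spin glass (MP_c171fe_pr)

`d ≥ 1`, `β > 0`, `s = n + 3` is the side of the torus, `K = (2βd + 3) s^d`. There is a deterministic sequence
`M n` (a median of `t_mix`) such that

* (1) for all `n` and all `x ≥ 0`, `P (M exp(-x)/(3K) ≤ t_mix < 3K M exp(x)) ≥ 1 - 4 exp (-x² / (16 β² d s^d))`;
* (2) for `ε > d/2` and `δ < 2ε - d`, for all large `n`,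
  `P (M exp (-s^ε) ≤ t_mix < M exp (s^ε)) ≥ 1 - exp (-s^δ)`;
* (3) for `ε > d/2`: `P (t_mix ≥ exp (s^ε')) → 1` for every `ε' < ε` if and only if for every `ε' < ε`,
  `M n ≥ exp (s^ε')` for all large `n`;
* (4) zero-one law, `ε > d/2`, `δ < 2ε - d`: if `P (t_mix ≥ exp (s^ε)) ≥ exp (-s^δ)` for all large `n`, then
  `P (t_mix ≥ exp (s^ε')) → 1` for every `ε' < ε`; if `P (t_mix < exp (s^ε)) ≥ exp (-s^δ)` for all large `n`, then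
  `P (t_mix ≥ exp (s^ε')) → 0` for every `ε' > ε`.
-/

namespace Pool.Agent.Results.MP_c171fe_pr.SelfAveraging

open Pool.Agent.SGZ Filter Topology

theorem result (d : ℕ) (β : ℝ) (hd : 1 ≤ d) (hβ : 0 < β) : ∃ M : ℕ → ℕ,
    (∀ (n : ℕ) (x : ℝ), 0 ≤ x →
      1 - 4 * Real.exp (-(x ^ 2 / (16 * β ^ 2 * d * (n + 3 : ℝ) ^ d))) ≤
        probBetween d n β (M n * Real.exp (-x) / (3 * ((2 * β * d + 3) * (n + 3 : ℝ) ^ d)))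
          (M n * Real.exp x * (3 * ((2 * β * d + 3) * (n + 3 : ℝ) ^ d)))) ∧
    (∀ ε δ : ℝ, (d : ℝ) / 2 < ε → δ < 2 * ε - d → ∀ᶠ n : ℕ in atTop,
      1 - Real.exp (-(n + 3 : ℝ) ^ δ) ≤
        probBetween d n β (M n * Real.exp (-(n + 3 : ℝ) ^ ε)) (M n * Real.exp ((n + 3 : ℝ) ^ ε))) ∧
    (∀ ε : ℝ, (d : ℝ) / 2 < ε →
      ((∀ ε' : ℝ, ε' < ε → Tendsto (fun n : ℕ => probMixGe d n β (Real.exp ((n + 3 : ℝ) ^ ε'))) atTop (𝓝 1)) ↔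
        ∀ ε' : ℝ, ε' < ε → ∀ᶠ n : ℕ in atTop, Real.exp ((n + 3 : ℝ) ^ ε') ≤ M n)) ∧
    (∀ ε δ : ℝ, (d : ℝ) / 2 < ε → δ < 2 * ε - d →
      ((∀ᶠ n : ℕ in atTop, Real.exp (-(n + 3 : ℝ) ^ δ) ≤ probMixGe d n β (Real.exp ((n + 3 : ℝ) ^ ε))) →
        ∀ ε' : ℝ, ε' < ε →
          Tendsto (fun n : ℕ => probMixGe d n β (Real.exp ((n + 3 : ℝ) ^ ε'))) atTop (𝓝 1)) ∧
      ((∀ᶠ n : ℕ in atTop, Real.exp (-(n + 3 : ℝ) ^ δ) ≤ 1 - probMixGe d n β (Real.exp ((n + 3 : ℝ) ^ ε))) →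
        ∀ ε' : ℝ, ε < ε' →
          Tendsto (fun n : ℕ => probMixGe d n β (Real.exp ((n + 3 : ℝ) ^ ε'))) atTop (𝓝 0))) := by
  obtain ⟨M, -, h1, h2⟩ := tom_all d β hd hβ
  refine ⟨M, h1, h2, t_EQV d β M hd hβ h2, ?_⟩
  intro ε δ hε hδ
  exact ⟨fun h ε' hε' => lim_one tor_all d β ε ε' δ hd hβ hε hδ hε' h,
    fun h ε' hε' => t_ZER tor_all d β ε ε' δ hd hβ hε hδ hε' h⟩

end Pool.Agent.Results.MP_c171fe_pr.SelfAveraging
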